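import Mathlib
import Pool.Agent.H744R2.Falc.Final
import Pool.Agent.H744R2.Falc.FrostH
import Pool.Agent.H744R2.Falc.Assembly
import Pool.Agent.W66.VA
import Pool.Agent.W777.DL.Dim

set_option autoImplicit false

/-!
# Falconer's distance problem for almost every one-parameter stretch (MP_c40668_an): statements

`J` is a set of coordinates of `ℝ^d`; `stretch J lam` multiplies the coordinates in `J` by `lam`.
-/

namespace Pool.Agent.W772.FA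

open MeasureTheory Set Metric Filter Complex
open Pool.Agent.H744R2.Falc (Fro A4b_e A4b_Phi A4b_g)
open scoped ENNReal Topology

/-- Euclidean space -/
abbrev E (d : ℕ) := EuclideanSpace ℝ (Fin d)

/-- sum of the squares of the coordinates outside `J` -/
noncomputable def qa {d : ℕ} (J : Finset (Fin d)) (z : E d) : ℝ := ∑ i ∈ Jᶜ, z i ^ 2

/-- sum of the squares of the coordinates in `J` -/
noncomputable def qb {d : ℕ} (J : Finset (Fin d)) (z : E d) : ℝ := ∑ i ∈ J, z i ^ 2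

/-- the kernel `exp(-(1-iu) qa(z) - (1-iv) qb(z))` -/
noncomputable def ker {d : ℕ} (J : Finset (Fin d)) (u v : ℝ) (z : E d) : ℂ :=
  cexp (-((1 - I * u) * (qa J z : ℂ)) - (1 - I * v) * (qb J z : ℂ))

/-- `∬ ker(z - z') f(z) g(z') dμ(z) dμ(z')` -/
noncomputable def NN {d : ℕ} (J : Finset (Fin d)) (μ : Measure (E d)) (f g : E d → ℝ)
    (u v : ℝ) : ℂ :=
  ∫ p : E d × E d, ker J u v (p.1 - p.2) * ((f p.1 * g p.2 : ℝ) : ℂ) ∂(μ.prod μ)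

/-- the factor of a block of `k` coordinates:
`((4π(1-iu))^(1/2))^(-k) exp(-q/(4(1-iu)))` -/
noncomputable def blk (k : ℕ) (u q : ℝ) : ℂ :=
  ((((4 * Real.pi : ℝ) : ℂ) * (1 - I * u)) ^ (1 / 2 : ℂ))⁻¹ ^ k *
    cexp (-((q : ℂ) / (4 * (1 - I * u))))

/-- bounded measurable -/
def BM {d : ℕ} (A : ℝ) (f : E d → ℝ) : Prop := Measurable f ∧ ∀ z, |f z| ≤ A

/-- the supports of `f` and `g` are separated in both blocks -/
def Sep {d : ℕ} (J : Finset (Fin d)) (c : ℝ) (f g : E d → ℝ) : Prop :=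
  ∀ z z', f z ≠ 0 → g z' ≠ 0 → c ≤ qa J (z - z') ∧ c ≤ qb J (z - z')

/-- Frostman condition with exponent `s` -/
def FrM {d : ℕ} (μ : Measure (E d)) (C s : ℝ) : Prop :=
  ∀ (x : E d) (r : ℝ), 0 < r → μ (closedBall x r) ≤ ENNReal.ofReal (C * r ^ s)

/-- multiply the coordinates in `J` by `lam` -/
noncomputable def stretch {d : ℕ} (J : Finset (Fin d)) (lam : ℝ) (x : E d) : E d :=
  WithLp.toLp 2 (fun i => if i ∈ J then lam * x i else x i)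

/-- the distance set -/
def distanceSet {d : ℕ} (A : Set (E d)) : Set ℝ := {r | ∃ x ∈ A, ∃ y ∈ A, r = dist x y}

/-- `{qa(z-z') + κ qb(z-z') : z, z' ∈ A}` -/
def DK {d : ℕ} (J : Finset (Fin d)) (A : Set (E d)) (κ : ℝ) : Set ℝ :=
  {r | ∃ z ∈ A, ∃ z' ∈ A, r = qa J (z - z') + κ * qb J (z - z')}

/-- dyadic piece of the `L^2` norm of the characteristic function -/
noncomputable def Dj {d : ℕ} (J : Finset (Fin d)) (μ : Measure (E d)) (f g : E d → ℝ)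
    (j : ℕ) (κ : ℝ) : ℝ≥0∞ :=
  ∫⁻ τ in Icc ((2 ^ j : ℕ) : ℝ) (2 * ((2 ^ j : ℕ) : ℝ)), ENNReal.ofReal (‖NN J μ f g τ (κ * τ)‖ ^ 2)

/-- FT: Fourier representation of `NN`. -/
def S_FT : Prop := ∀ (d : ℕ) (J : Finset (Fin d)) (μ : Measure (E d)), IsProbabilityMeasure μ →
  ∀ (A : ℝ) (f g : E d → ℝ), BM A f → BM A g → ∀ u v : ℝ,
    Integrable (fun ζ : E d => blk Jᶜ.card u (qa J ζ) * blk J.card v (qb J ζ)) ∧
    NN J μ f g u v = ∫ ζ : E d, blk Jᶜ.card u (qa J ζ) * blk J.card v (qb J ζ) *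
      (A4b_Phi μ (fun z => (f z : ℂ)) ζ * (starRingEnd ℂ) (A4b_Phi μ (fun z => (g z : ℂ)) ζ))

/-- BO: oscillatory integral of one block (van der Corput). -/
def S_BO : Prop := ∀ (k : ℕ) (c : ℝ), 0 < c → ∃ C : ℝ, 0 < C ∧
  ∀ R r q a b : ℝ, 2 ≤ R → c ≤ r → 0 ≤ q → R ≤ a → a ≤ b → b ≤ 8 * R →
    ‖∫ u in a..b, cexp (-(I * ((u * r : ℝ) : ℂ))) * blk k u q‖ ≤
      C * R ^ ((1 - (k : ℝ)) / 2) * Real.exp (-(1 / (520 * R ^ 2) * q))

/-- ME: main estimate. -/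
def S_ME : Prop := ∀ (d : ℕ) (J : Finset (Fin d)) (μ : Measure (E d)), IsProbabilityMeasure μ →
  ∀ (C₀ s c A : ℝ), 0 < C₀ → 0 ≤ s → 0 < c → 0 ≤ A → FrM μ C₀ s → ∃ C : ℝ, 0 < C ∧
    ∀ f g : E d → ℝ, BM A f → BM A g → Sep J c f g → ∀ R : ℝ, 2 ≤ R →
      ∫⁻ u in Icc R (2 * R), ∫⁻ v in Icc R (8 * R), ENNReal.ofReal (‖NN J μ f g u v‖ ^ 2) ≤
        ENNReal.ofReal (C * R ^ (1 + (d : ℝ) / 2 - s))

/-- DIM: the exceptional parameters, from `S_ME`. -/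
def S_DIM : Prop := S_ME → ∀ (d : ℕ) (J : Finset (Fin d)) (μ : Measure (E d)),
  IsProbabilityMeasure μ → ∀ (C₀ s c A ρ : ℝ), 0 < C₀ → 0 ≤ s → 0 < c → 0 ≤ A → FrM μ C₀ s →
    ∀ f g : E d → ℝ, BM A f → BM A g → Sep J c f g →
      (∀ z, f z ≠ 0 → ‖z‖ ≤ ρ) → (∀ z, g z ≠ 0 → ‖z‖ ≤ ρ) →
      ∀ γ : ℝ, 0 < γ → 0 ≤ γ + (1 + (d : ℝ) / 2 - s) →
        dimH {κ ∈ Icc (1 : ℝ) 4 | ∃ᶠ j in atTop,
          ENNReal.ofReal (((2 ^ j : ℕ) : ℝ) ^ (-γ)) < Dj J μ f g j κ} ≤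
        ENNReal.ofReal (γ + (1 + (d : ℝ) / 2 - s))

/-- ABS: square integrability of the characteristic function gives positive measure. -/
def S_ABS : Prop := ∀ (d : ℕ) (J : Finset (Fin d)) (μ : Measure (E d)), IsProbabilityMeasure μ →
  ∀ (A : Set (E d)), IsCompact A → μ Aᶜ = 0 → ∀ (B₁ B₂ : Set (E d)), MeasurableSet B₁ →
    MeasurableSet B₂ → 0 < μ B₁ → 0 < μ B₂ → ∀ (κ γ : ℝ), 0 < γ →
      (∀ᶠ j in atTop, Dj J μ (B₁.indicator 1) (B₂.indicator 1) j κ ≤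
        ENNReal.ofReal (((2 ^ j : ℕ) : ℝ) ^ (-γ))) → 0 < volume (DK J A κ)

/-- DEG: either two pieces of the measure are separated in both blocks, or every stretch has a
distance set of positive measure. -/
def S_DEG : Prop := ∀ (d : ℕ) (J : Finset (Fin d)), J.Nonempty → Jᶜ.Nonempty →
  ∀ (A : Set (E d)), IsCompact A → ∀ (μ : Measure (E d)), IsProbabilityMeasure μ → μ Aᶜ = 0 →
    ∀ C₀ s : ℝ, 0 < C₀ → (d : ℝ) / 2 < s → FrM μ C₀ s →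
      (∃ (c : ℝ) (B₁ B₂ : Set (E d)), 0 < c ∧ MeasurableSet B₁ ∧ MeasurableSet B₂ ∧
        Bornology.IsBounded B₁ ∧ Bornology.IsBounded B₂ ∧ 0 < μ B₁ ∧ 0 < μ B₂ ∧
        ∀ z ∈ B₁, ∀ z' ∈ B₂, c ≤ qa J (z - z') ∧ c ≤ qb J (z - z')) ∨
      (∀ lam : ℝ, 0 < lam → 0 < volume (distanceSet (stretch J lam '' A)))

/-- ONE: the exceptional set in `[1,2]`. -/
def S_ONE : Prop := ∀ (d : ℕ) (J : Finset (Fin d)), J.Nonempty → Jᶜ.Nonempty →
  ∀ (A : Set (E d)), IsCompact A → (d : ℝ≥0∞) / 2 < dimH A →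
    dimH {lam ∈ Icc (1 : ℝ) 2 | volume (distanceSet (stretch J lam '' A)) = 0} ≤
      (d : ℝ≥0∞) / 2 + 1 - dimH A

/-- FIN: the final theorem from `S_ONE`. -/
def S_FIN : Prop := S_ONE → ∀ (d : ℕ) (J : Finset (Fin d)), J.Nonempty → Jᶜ.Nonempty →
  ∀ (A : Set (E d)), IsCompact A → (d : ℝ≥0∞) / 2 < dimH A →
    dimH {lam : ℝ | 0 < lam ∧ volume (distanceSet (stretch J lam '' A)) = 0} ≤
      (d : ℝ≥0∞) / 2 + 1 - dimH A ∧
    ∀ᵐ lam : ℝ, 0 < lam → 0 < volume (distanceSet (stretch J lam '' A))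

end Pool.Agent.W772.FA
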