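import Pool.Agent.W772.FA.Defs

set_option autoImplicit false

namespace Pool.Agent.W772.FA

open MeasureTheory Set Metric Filter Complex
open Pool.Agent.H744R2.Falc (Fro A4b_e A4b_Phi A4b_g)
open scoped ENNReal Topology

lemma qa_nonneg {d : ℕ} (J : Finset (Fin d)) (z : E d) : 0 ≤ qa J z :=
  Finset.sum_nonneg fun i _ => sq_nonneg _

lemma qb_nonneg {d : ℕ} (J : Finset (Fin d)) (z : E d) : 0 ≤ qb J z :=
  Finset.sum_nonneg fun i _ => sq_nonneg _

lemma qa_cont {d : ℕ} (J : Finset (Fin d)) : Continuous (qa J : E d → ℝ) := by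
  unfold qa; fun_prop

lemma qb_cont {d : ℕ} (J : Finset (Fin d)) : Continuous (qb J : E d → ℝ) := by
  unfold qb; fun_prop

lemma qab {d : ℕ} (J : Finset (Fin d)) (z : E d) : qa J z + qb J z = ‖z‖ ^ 2 := by
  unfold qa qb
  rw [EuclideanSpace.norm_sq_eq, Finset.sum_compl_add_sum]
  exact Finset.sum_congr rfl fun i _ => by rw [Real.norm_eq_abs, sq_abs]

lemma ker_cont {d : ℕ} (J : Finset (Fin d)) :
    Continuous (fun p : (ℝ × ℝ) × E d => ker J p.1.1 p.1.2 p.2) := by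
  unfold ker
  have h1 := (qa_cont J)
  have h2 := (qb_cont J)
  fun_prop

lemma ker_eq {d : ℕ} (J : Finset (Fin d)) (u v : ℝ) (z : E d) :
    ker J u v z = ((Real.exp (-(qa J z) - qb J z) : ℝ) : ℂ) *
      cexp (((u * qa J z + v * qb J z : ℝ) : ℂ) * I) := by
  unfold ker
  rw [Complex.ofReal_exp, ← Complex.exp_add]
  congr 1
  push_cast
  ring

lemma ker_norm {d : ℕ} (J : Finset (Fin d)) (u v : ℝ) (z : E d) :
    ‖ker J u v z‖ = Real.exp (-(qa J z) - qb J z) := by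
  rw [ker_eq, norm_mul, Complex.norm_exp_ofReal_mul_I, mul_one, Complex.norm_real,
    Real.norm_eq_abs, abs_of_pos (Real.exp_pos _)]

lemma ker_norm_le {d : ℕ} (J : Finset (Fin d)) (u v : ℝ) (z : E d) : ‖ker J u v z‖ ≤ 1 := by
  rw [ker_norm]
  exact Real.exp_le_one_iff.2 (by have := qa_nonneg J z; have := qb_nonneg J z; linarith)

lemma ker_conj {d : ℕ} (J : Finset (Fin d)) (u v : ℝ) (z : E d) :
    (starRingEnd ℂ) (ker J u v z) = ((Real.exp (-(qa J z) - qb J z) : ℝ) : ℂ) *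
      (cexp (-(I * ((u * qa J z : ℝ) : ℂ))) * cexp (-(I * ((v * qb J z : ℝ) : ℂ)))) := by
  rw [ker_eq, map_mul, Complex.conj_ofReal, ← Complex.exp_conj, ← Complex.exp_add]
  congr 2
  rw [map_mul, Complex.conj_ofReal, Complex.conj_I]
  push_cast
  ring

lemma base_slit (u : ℝ) : ((4 * Real.pi : ℝ) : ℂ) * (1 - I * u) ∈ Complex.slitPlane := by
  left
  have : (((4 * Real.pi : ℝ) : ℂ) * (1 - I * u)).re = 4 * Real.pi := by
    rw [Complex.re_ofReal_mul]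
    simp
  rw [this]
  positivity

lemma base_norm (u : ℝ) : 1 ≤ ‖((4 * Real.pi : ℝ) : ℂ) * (1 - I * u)‖ := by
  have h := Complex.abs_re_le_norm (((4 * Real.pi : ℝ) : ℂ) * (1 - I * u))
  have h2 : (((4 * Real.pi : ℝ) : ℂ) * (1 - I * u)).re = 4 * Real.pi := by
    rw [Complex.re_ofReal_mul]
    simp
  rw [h2, abs_of_pos (by positivity)] at h
  have := Real.pi_gt_three
  linarith

lemma inv_one_sub (u : ℝ) (q : ℝ) : (q : ℂ) / (4 * (1 - I * u)) =
    ((q / (4 * (1 + u ^ 2)) : ℝ) : ℂ) + ((q * u / (4 * (1 + u ^ 2)) : ℝ) : ℂ) * I := by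
  have h1 : (1 - I * (u : ℂ)) ≠ 0 := by
    intro h
    have := congrArg Complex.re h
    simp at this
  have h2 : ((1 + u ^ 2 : ℝ) : ℂ) ≠ 0 := by
    rw [Complex.ofReal_ne_zero]; positivity
  have h3 : (1 - I * (u : ℂ)) * (1 + I * u) = ((1 + u ^ 2 : ℝ) : ℂ) := by
    push_cast
    ring_nf
    rw [Complex.I_sq]
    ring
  rw [div_eq_iff (by simpa using h1)]
  push_cast
  push_cast at h2 h3
  field_simp
  ring_nf
  rw [Complex.I_sq]
  ring

lemma blk_exp_norm (u q : ℝ) : ‖cexp (-((q : ℂ) / (4 * (1 - I * u))))‖ =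
    Real.exp (-(q / (4 * (1 + u ^ 2)))) := by
  rw [Complex.norm_exp, inv_one_sub]
  congr 1
  simp [-Complex.ofReal_div, -Complex.ofReal_mul]

lemma blk_norm_le (k : ℕ) (u q : ℝ) : ‖blk k u q‖ ≤ Real.exp (-(q / (4 * (1 + u ^ 2)))) := by
  unfold blk
  rw [norm_mul, blk_exp_norm, norm_pow, norm_inv]
  have h1 : 1 ≤ ‖(((4 * Real.pi : ℝ) : ℂ) * (1 - I * u)) ^ (1 / 2 : ℂ)‖ := by
    have h0 := base_norm u
    rw [Complex.norm_cpow_of_ne_zero (Complex.slitPlane_ne_zero (base_slit u))]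
    have e1 : (1 / 2 : ℂ).im = 0 := by simp
    have e2 : (1 / 2 : ℂ).re = 1 / 2 := by simp
    rw [e1, e2, mul_zero, Real.exp_zero, div_one]
    exact Real.one_le_rpow h0 (by norm_num)
  have h2 : ‖(((4 * Real.pi : ℝ) : ℂ) * (1 - I * u)) ^ (1 / 2 : ℂ)‖⁻¹ ≤ 1 := inv_le_one_of_one_le₀ h1
  have h3 : ‖(((4 * Real.pi : ℝ) : ℂ) * (1 - I * u)) ^ (1 / 2 : ℂ)‖⁻¹ ^ k ≤ 1 :=
    pow_le_one₀ (by positivity) h2
  calc _ ≤ 1 * Real.exp (-(q / (4 * (1 + u ^ 2)))) :=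
        mul_le_mul_of_nonneg_right h3 (Real.exp_pos _).le
    _ = _ := one_mul _

lemma blk_cont (k : ℕ) : Continuous (fun p : ℝ × ℝ => blk k p.1 p.2) := by
  unfold blk
  have h1 : Continuous (fun p : ℝ × ℝ => (((4 * Real.pi : ℝ) : ℂ) * (1 - I * (p.1 : ℂ))) ^ (1 / 2 : ℂ)) := by
    refine Continuous.cpow (by fun_prop) continuous_const fun p => base_slit p.1
  have h2 : ∀ p : ℝ × ℝ, (((4 * Real.pi : ℝ) : ℂ) * (1 - I * (p.1 : ℂ))) ^ (1 / 2 : ℂ) ≠ 0 := by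
    intro p h
    rw [Complex.cpow_eq_zero_iff] at h
    exact Complex.slitPlane_ne_zero (base_slit p.1) h.1
  have h3 : ∀ p : ℝ × ℝ, (4 : ℂ) * (1 - I * (p.1 : ℂ)) ≠ 0 := by
    intro p h
    have := congrArg Complex.re h
    simp at this
  exact ((h1.inv₀ h2).pow k).mul (Complex.continuous_exp.comp
    ((Continuous.div (by fun_prop) (by fun_prop) h3).neg))

end Pool.Agent.W772.FA
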