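import Pool.Agent.W772.FA.Basic

set_option autoImplicit false

namespace Pool.Agent.W772.FA

open MeasureTheory Set Metric Filter Complex
open Pool.Agent.H744R2.Falc (Fro A4b_e A4b_Phi A4b_g A4b_J A4b_Phi_meas A4b_Phi_norm A4b_g_int
  A4b_g_pos A4b_g_cont gauss_frostman)
open scoped ENNReal Topology

/-- the parameter measure -/
noncomputable def pm (R : ℝ) : Measure (ℝ × ℝ) :=
  (volume.restrict (Icc R (2 * R))).prod (volume.restrict (Icc R (8 * R)))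

instance (R : ℝ) : IsFiniteMeasure (pm R) := by
  unfold pm
  infer_instance

lemma pm_ae (R : ℝ) : ∀ᵐ p ∂(pm R), p.1 ∈ Icc R (2 * R) ∧ p.2 ∈ Icc R (8 * R) := by
  unfold pm
  rw [Measure.prod_restrict]
  filter_upwards [ae_restrict_mem (measurableSet_Icc.prod measurableSet_Icc)] with p hp
  exact hp

section

variable {d : ℕ} (J : Finset (Fin d)) (μ : Measure (E d)) [IsProbabilityMeasure μ]

/-- the full integrand -/
lemma kf_meas {f g : E d → ℝ} (hf : Measurable f) (hg : Measurable g) :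
    Measurable (fun x : (ℝ × ℝ) × (E d × E d) =>
      ker J x.1.1 x.1.2 (x.2.1 - x.2.2) * ((f x.2.1 * g x.2.2 : ℝ) : ℂ)) := by
  have h1 : Continuous (fun x : (ℝ × ℝ) × (E d × E d) => ker J x.1.1 x.1.2 (x.2.1 - x.2.2)) :=
    (ker_cont J).comp (by fun_prop : Continuous fun x : (ℝ × ℝ) × (E d × E d) =>
      ((x.1, x.2.1 - x.2.2) : (ℝ × ℝ) × E d))
  refine h1.measurable.mul (Complex.measurable_ofReal.comp ?_)
  exact (hf.comp (measurable_fst.comp measurable_snd)).mul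
    (hg.comp (measurable_snd.comp measurable_snd))

lemma kf_norm {A : ℝ} {f g : E d → ℝ} (hf : BM A f) (hg : BM A g) (u v : ℝ) (q : E d × E d) :
    ‖ker J u v (q.1 - q.2) * ((f q.1 * g q.2 : ℝ) : ℂ)‖ ≤ A ^ 2 := by
  have hA : 0 ≤ A := (abs_nonneg _).trans (hf.2 0)
  rw [norm_mul, Complex.norm_real, Real.norm_eq_abs, abs_mul]
  have h1 := ker_norm_le J u v (q.1 - q.2)
  have h2 : |f q.1| * |g q.2| ≤ A * A := mul_le_mul (hf.2 _) (hg.2 _) (abs_nonneg _) hA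
  calc _ ≤ 1 * (A * A) := mul_le_mul h1 h2 (by positivity) zero_le_one
    _ = A ^ 2 := by ring

lemma NN_norm {A : ℝ} {f g : E d → ℝ} (hf : BM A f) (hg : BM A g) (u v : ℝ) :
    ‖NN J μ f g u v‖ ≤ A ^ 2 := by
  have h := norm_integral_le_of_norm_le_const (μ := μ.prod μ) (C := A ^ 2)
    (f := fun p : E d × E d => ker J u v (p.1 - p.2) * ((f p.1 * g p.2 : ℝ) : ℂ))
    (ae_of_all _ fun q => kf_norm J hf hg u v q)
  simpa [NN] using h

lemma NN_meas {f g : E d → ℝ} (hf : Measurable f) (hg : Measurable g) :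
    Measurable (fun p : ℝ × ℝ => NN J μ f g p.1 p.2) := by
  have h := (kf_meas J hf hg).stronglyMeasurable
  exact (h.integral_prod_right' (ν := μ.prod μ)).measurable

attribute [local irreducible] blk

lemma blk_meas2 {X : Type*} [MeasurableSpace X] (k : ℕ) {u q : X → ℝ} (hu : Measurable u)
    (hq : Measurable q) : Measurable (fun x => blk k (u x) (q x)) := by
  have h0 : Measurable (fun p : ℝ × ℝ => blk k p.1 p.2) := Continuous.measurable (blk_cont k)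
  have h1 : Measurable (fun x => (u x, q x)) := Measurable.prodMk hu hq
  have h := Measurable.comp h0 h1
  exact h

/-- bound for the inner integral -/
lemma inner_bound (hFT : S_FT) {A : ℝ} {f g : E d → ℝ} (hf : BM A f) (hg : BM A g) {R : ℝ}
    (hR : 2 ≤ R) {Ca Cb r1 r2 : ℝ} (hCa : 0 ≤ Ca) (hCb : 0 ≤ Cb)
    (ha : ∀ q : ℝ, 0 ≤ q → ‖∫ u in R..(2 * R), cexp (-(I * ((u * r1 : ℝ) : ℂ))) * blk Jᶜ.card u q‖ ≤
      Ca * Real.exp (-(1 / (520 * R ^ 2) * q)))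
    (hb : ∀ q : ℝ, 0 ≤ q → ‖∫ v in R..(8 * R), cexp (-(I * ((v * r2 : ℝ) : ℂ))) * blk J.card v q‖ ≤
      Cb * Real.exp (-(1 / (520 * R ^ 2) * q))) {T : ℝ}
    (hT1 : ∫ ξ, A4b_g (1 / (520 * R ^ 2)) ξ * ‖A4b_Phi μ (fun z => (f z : ℂ)) ξ‖ ^ 2 ≤ T)
    (hT2 : ∫ ξ, A4b_g (1 / (520 * R ^ 2)) ξ * ‖A4b_Phi μ (fun z => (g z : ℂ)) ξ‖ ^ 2 ≤ T) :
    ‖∫ p, NN J μ f g p.1 p.2 * (cexp (-(I * ((p.1 * r1 : ℝ) : ℂ))) *
      cexp (-(I * ((p.2 * r2 : ℝ) : ℂ)))) ∂(pm R)‖ ≤ Ca * Cb * T := by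
  have hA : 0 ≤ A := (abs_nonneg _).trans (hf.2 0)
  have hR0 : 0 < R := by linarith
  set Φ := A4b_Phi μ (fun z => (f z : ℂ)) with hΦ
  set Γ := A4b_Phi μ (fun z => (g z : ℂ)) with hΓ
  have hfm : Measurable (fun z => (f z : ℂ)) := Complex.measurable_ofReal.comp hf.1
  have hgm : Measurable (fun z => (g z : ℂ)) := Complex.measurable_ofReal.comp hg.1
  have hfb : ∀ x, ‖(f x : ℂ)‖ ≤ A := fun x => by
    rw [Complex.norm_real, Real.norm_eq_abs]; exact hf.2 x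
  have hgb : ∀ x, ‖(g x : ℂ)‖ ≤ A := fun x => by
    rw [Complex.norm_real, Real.norm_eq_abs]; exact hg.2 x
  have hΦm : Measurable Φ := A4b_Phi_meas μ hfm
  have hΓm : Measurable Γ := A4b_Phi_meas μ hgm
  have hΦn : ∀ ξ, ‖Φ ξ‖ ≤ A := A4b_Phi_norm μ hfb
  have hΓn : ∀ ξ, ‖Γ ξ‖ ≤ A := A4b_Phi_norm μ hgb
  set b0 : ℝ := 1 / (520 * R ^ 2) with hb0
  have hb0p : 0 < b0 := by positivity
  -- integrand on parameters times frequencies
  set F : (ℝ × ℝ) → E d → ℂ := fun p ζ =>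
    (blk Jᶜ.card p.1 (qa J ζ) * blk J.card p.2 (qb J ζ) * (Φ ζ * (starRingEnd ℂ) (Γ ζ))) *
      (cexp (-(I * ((p.1 * r1 : ℝ) : ℂ))) * cexp (-(I * ((p.2 * r2 : ℝ) : ℂ)))) with hF
  have hconjm : Measurable (fun ζ => (starRingEnd ℂ) (Γ ζ)) :=
    Complex.continuous_conj.measurable.comp hΓm
  have hFm : Measurable (Function.uncurry F) := by
    have m1 : Measurable (fun x : (ℝ × ℝ) × E d => blk Jᶜ.card x.1.1 (qa J x.2)) :=
      blk_meas2 Jᶜ.card (measurable_fst.comp measurable_fst) ((qa_cont J).measurable.comp measurable_snd)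
    have m2 : Measurable (fun x : (ℝ × ℝ) × E d => blk J.card x.1.2 (qb J x.2)) :=
      blk_meas2 J.card (measurable_snd.comp measurable_fst) ((qb_cont J).measurable.comp measurable_snd)
    have m3 : Measurable (fun x : (ℝ × ℝ) × E d => Φ x.2) := hΦm.comp measurable_snd
    have m4 : Measurable (fun x : (ℝ × ℝ) × E d => (starRingEnd ℂ) (Γ x.2)) :=
      hconjm.comp measurable_snd
    have m5 : Measurable (fun x : (ℝ × ℝ) × E d => cexp (-(I * ((x.1.1 * r1 : ℝ) : ℂ)))) := by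
      fun_prop
    have m6 : Measurable (fun x : (ℝ × ℝ) × E d => cexp (-(I * ((x.1.2 * r2 : ℝ) : ℂ)))) := by
      fun_prop
    exact Measurable.mul (Measurable.mul (Measurable.mul m1 m2) (Measurable.mul m3 m4))
      (Measurable.mul m5 m6)
  have hexp1 : ∀ t : ℝ, ‖cexp (-(I * (t : ℂ)))‖ = 1 := by
    intro t
    rw [show -(I * (t : ℂ)) = ((-t : ℝ) : ℂ) * I by push_cast; ring]
    exact Complex.norm_exp_ofReal_mul_I _
  set b1 : ℝ := 1 / (4 * (1 + 64 * R ^ 2)) with hb1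
  have hb1p : 0 < b1 := by positivity
  have hblk : ∀ (k : ℕ) (u q : ℝ), u ∈ Icc R (8 * R) → 0 ≤ q → ‖blk k u q‖ ≤ Real.exp (-(b1 * q)) := by
    intro k u q hu hq
    refine (blk_norm_le k u q).trans (Real.exp_le_exp.2 (neg_le_neg ?_))
    rw [hb1, one_div, ← div_eq_inv_mul]
    apply div_le_div_of_nonneg_left hq (by positivity)
    have : u ^ 2 ≤ (8 * R) ^ 2 := pow_le_pow_left₀ (by linarith [hu.1]) hu.2 2
    nlinarith
  have hFn : ∀ᵐ x ∂((pm R).prod (volume : Measure (E d))), ‖Function.uncurry F x‖ ≤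
      A ^ 2 * A4b_g b1 x.2 := by
    have h0 : ∀ᵐ x ∂((pm R).prod (volume : Measure (E d))),
        x.1.1 ∈ Icc R (2 * R) ∧ x.1.2 ∈ Icc R (8 * R) :=
      Measure.quasiMeasurePreserving_fst.ae (pm_ae R)
    filter_upwards [h0] with x hx
    obtain ⟨⟨u, v⟩, ζ⟩ := x
    simp only at hx
    simp only [Function.uncurry, hF]
    rw [norm_mul, norm_mul, norm_mul, norm_mul, norm_mul, hexp1, hexp1, mul_one, mul_one,
      RCLike.norm_conj]
    have h1 := hblk Jᶜ.card u (qa J ζ) ⟨hx.1.1, hx.1.2.trans (by linarith)⟩ (qa_nonneg J ζ)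
    have h2 := hblk J.card v (qb J ζ) hx.2 (qb_nonneg J ζ)
    have h3 : ‖Φ ζ‖ * ‖Γ ζ‖ ≤ A * A := mul_le_mul (hΦn ζ) (hΓn ζ) (norm_nonneg _) hA
    calc ‖blk Jᶜ.card u (qa J ζ)‖ * ‖blk J.card v (qb J ζ)‖ * (‖Φ ζ‖ * ‖Γ ζ‖)
        ≤ (Real.exp (-(b1 * qa J ζ)) * Real.exp (-(b1 * qb J ζ))) * (A * A) := by gcongr
      _ = A ^ 2 * A4b_g b1 ζ := by
        unfold A4b_g
        rw [← Real.exp_add, ← qab J ζ]
        rw [show -(b1 * qa J ζ) + -(b1 * qb J ζ) = -(b1 * (qa J ζ + qb J ζ)) by ring]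
        ring
  have hFint : Integrable (Function.uncurry F) ((pm R).prod (volume : Measure (E d))) := by
    have h1 : Integrable (fun x : (ℝ × ℝ) × E d => A ^ 2 * A4b_g b1 x.2)
        ((pm R).prod (volume : Measure (E d))) :=
      Integrable.mul_prod (f := fun _ : ℝ × ℝ => A ^ 2) (integrable_const _) (A4b_g_int hb1p)
    exact h1.mono' hFm.aestronglyMeasurable hFn
  have hNN : ∀ p : ℝ × ℝ, NN J μ f g p.1 p.2 * (cexp (-(I * ((p.1 * r1 : ℝ) : ℂ))) *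
      cexp (-(I * ((p.2 * r2 : ℝ) : ℂ)))) = ∫ ζ, F p ζ := by
    intro p
    rw [(hFT d J μ inferInstance A f g hf hg p.1 p.2).2, ← integral_mul_const]
  simp only [hNN]
  rw [integral_integral_swap hFint]
  -- inner parameter integral
  have hpt : ∀ ζ : E d, ‖∫ p, F p ζ ∂(pm R)‖ ≤ Ca * Cb * (A4b_g b0 ζ * (‖Φ ζ‖ * ‖Γ ζ‖)) := by
    intro ζ
    have e1 : ∫ p, F p ζ ∂(pm R) = (Φ ζ * (starRingEnd ℂ) (Γ ζ)) *
        ((∫ u in R..(2 * R), cexp (-(I * ((u * r1 : ℝ) : ℂ))) * blk Jᶜ.card u (qa J ζ)) *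
        (∫ v in R..(8 * R), cexp (-(I * ((v * r2 : ℝ) : ℂ))) * blk J.card v (qb J ζ))) := by
      rw [intervalIntegral.integral_of_le (by linarith), intervalIntegral.integral_of_le (by linarith),
        ← integral_Icc_eq_integral_Ioc, ← integral_Icc_eq_integral_Ioc, ← integral_prod_mul,
        ← integral_const_mul]
      unfold pm
      refine integral_congr_ae (ae_of_all _ fun p => ?_)
      simp only [hF]
      ring
    rw [e1, norm_mul, norm_mul, norm_mul, RCLike.norm_conj]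
    have h1 := ha (qa J ζ) (qa_nonneg J ζ)
    have h2 := hb (qb J ζ) (qb_nonneg J ζ)
    calc ‖Φ ζ‖ * ‖Γ ζ‖ * (_ * _) ≤ ‖Φ ζ‖ * ‖Γ ζ‖ *
          ((Ca * Real.exp (-(1 / (520 * R ^ 2) * qa J ζ))) *
          (Cb * Real.exp (-(1 / (520 * R ^ 2) * qb J ζ)))) := by
          gcongr
      _ = Ca * Cb * (A4b_g b0 ζ * (‖Φ ζ‖ * ‖Γ ζ‖)) := by
        unfold A4b_g
        rw [← qab J ζ, hb0, show -(1 / (520 * R ^ 2) * (qa J ζ + qb J ζ)) =
          -(1 / (520 * R ^ 2) * qa J ζ) + -(1 / (520 * R ^ 2) * qb J ζ) by ring, Real.exp_add]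
        ring
  have hi : ∀ {Ψ : E d → ℂ}, Measurable Ψ → (∀ ξ, ‖Ψ ξ‖ ≤ A) →
      Integrable (fun ζ => A4b_g b0 ζ * ‖Ψ ζ‖ ^ 2) := by
    intro Ψ hm hn
    refine ((A4b_g_int hb0p).mul_const (A ^ 2)).mono' ?_ (ae_of_all _ fun ζ => ?_)
    · exact ((A4b_g_cont b0).measurable.mul (hm.norm.pow_const 2)).aestronglyMeasurable
    · rw [Real.norm_eq_abs, abs_of_nonneg (mul_nonneg (A4b_g_pos _ _).le (sq_nonneg _))]
      exact mul_le_mul_of_nonneg_left (pow_le_pow_left₀ (norm_nonneg _) (hn ζ) 2) (A4b_g_pos _ _).le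
  have hi1 := hi hΦm hΦn
  have hi2 := hi hΓm hΓn
  have hbound : Integrable (fun ζ => Ca * Cb * ((1 / 2) * (A4b_g b0 ζ * ‖Φ ζ‖ ^ 2 +
      A4b_g b0 ζ * ‖Γ ζ‖ ^ 2))) := ((hi1.add hi2).const_mul (1 / 2)).const_mul _
  calc ‖∫ ζ, ∫ p, F p ζ ∂(pm R)‖
      ≤ ∫ ζ, Ca * Cb * ((1 / 2) * (A4b_g b0 ζ * ‖Φ ζ‖ ^ 2 + A4b_g b0 ζ * ‖Γ ζ‖ ^ 2)) := by
        refine norm_integral_le_of_norm_le hbound (ae_of_all _ fun ζ => (hpt ζ).trans ?_)
        have h4 : ‖Φ ζ‖ * ‖Γ ζ‖ ≤ 1 / 2 * (‖Φ ζ‖ ^ 2 + ‖Γ ζ‖ ^ 2) := by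
          nlinarith [sq_nonneg (‖Φ ζ‖ - ‖Γ ζ‖)]
        have h5 := A4b_g_pos b0 ζ
        calc Ca * Cb * (A4b_g b0 ζ * (‖Φ ζ‖ * ‖Γ ζ‖)) ≤
              Ca * Cb * (A4b_g b0 ζ * (1 / 2 * (‖Φ ζ‖ ^ 2 + ‖Γ ζ‖ ^ 2))) := by gcongr
          _ = _ := by ring
    _ = Ca * Cb * ((1 / 2) * ((∫ ζ, A4b_g b0 ζ * ‖Φ ζ‖ ^ 2) + ∫ ζ, A4b_g b0 ζ * ‖Γ ζ‖ ^ 2)) := by
        rw [integral_const_mul, integral_const_mul, integral_add hi1 hi2]
    _ ≤ Ca * Cb * T := by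
        refine mul_le_mul_of_nonneg_left ?_ (mul_nonneg hCa hCb)
        linarith

/-- the double integral of `|N|^2` from the inner bound -/
lemma outer_bound {A c : ℝ} {f g : E d → ℝ} (hf : BM A f) (hg : BM A g) (hs : Sep J c f g) {R B : ℝ}
    (hB : 0 ≤ B)
    (hG : ∀ r1 r2 : ℝ, c ≤ r1 → c ≤ r2 → ‖∫ p, NN J μ f g p.1 p.2 *
      (cexp (-(I * ((p.1 * r1 : ℝ) : ℂ))) * cexp (-(I * ((p.2 * r2 : ℝ) : ℂ)))) ∂(pm R)‖ ≤ B) :
    ∫⁻ u in Icc R (2 * R), ∫⁻ v in Icc R (8 * R), ENNReal.ofReal (‖NN J μ f g u v‖ ^ 2) ≤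
      ENNReal.ofReal (A ^ 2 * B) := by
  have hA : 0 ≤ A := (abs_nonneg _).trans (hf.2 0)
  have hNm := NN_meas J μ hf.1 hg.1
  have e0 : ∫⁻ u in Icc R (2 * R), ∫⁻ v in Icc R (8 * R), ENNReal.ofReal (‖NN J μ f g u v‖ ^ 2) =
      ∫⁻ p, ENNReal.ofReal (‖NN J μ f g p.1 p.2‖ ^ 2) ∂(pm R) := by
    unfold pm
    rw [lintegral_prod _ (by fun_prop)]
  have hint : Integrable (fun p : ℝ × ℝ => ‖NN J μ f g p.1 p.2‖ ^ 2) (pm R) := by
    refine Integrable.of_bound (by fun_prop) ((A ^ 2) ^ 2) (ae_of_all _ fun p => ?_)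
    rw [Real.norm_eq_abs, abs_of_nonneg (sq_nonneg _)]
    exact pow_le_pow_left₀ (norm_nonneg _) (NN_norm J μ hf hg _ _) 2
  rw [e0, ← ofReal_integral_eq_lintegral_ofReal hint (ae_of_all _ fun p => sq_nonneg _)]
  apply ENNReal.ofReal_le_ofReal
  have h0 : 0 ≤ ∫ p, ‖NN J μ f g p.1 p.2‖ ^ 2 ∂(pm R) := integral_nonneg fun p => sq_nonneg _
  have h1 : ((∫ p, ‖NN J μ f g p.1 p.2‖ ^ 2 ∂(pm R) : ℝ) : ℂ) =
      ∫ q, (∫ p, NN J μ f g p.1 p.2 * (starRingEnd ℂ) (ker J p.1 p.2 (q.1 - q.2) *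
        ((f q.1 * g q.2 : ℝ) : ℂ)) ∂(pm R)) ∂(μ.prod μ) := by
    have hm : Measurable (Function.uncurry fun (p : ℝ × ℝ) (q : E d × E d) => NN J μ f g p.1 p.2 *
        (starRingEnd ℂ) (ker J p.1 p.2 (q.1 - q.2) * ((f q.1 * g q.2 : ℝ) : ℂ))) := by
      unfold Function.uncurry
      exact (hNm.comp measurable_fst).mul
        (Complex.continuous_conj.measurable.comp (kf_meas J hf.1 hg.1))
    have hint2 : Integrable (Function.uncurry fun (p : ℝ × ℝ) (q : E d × E d) =>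
        NN J μ f g p.1 p.2 * (starRingEnd ℂ) (ker J p.1 p.2 (q.1 - q.2) *
          ((f q.1 * g q.2 : ℝ) : ℂ))) ((pm R).prod (μ.prod μ)) := by
      refine Integrable.of_bound hm.aestronglyMeasurable (A ^ 2 * A ^ 2) (ae_of_all _ fun x => ?_)
      unfold Function.uncurry
      rw [norm_mul, RCLike.norm_conj]
      exact mul_le_mul (NN_norm J μ hf hg _ _) (kf_norm J hf hg _ _ _) (norm_nonneg _) (by positivity)
    rw [← integral_integral_swap hint2, ← integral_complex_ofReal]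
    refine integral_congr_ae (ae_of_all _ fun p => ?_)
    simp only
    rw [integral_const_mul, integral_conj]
    change _ = NN J μ f g p.1 p.2 * (starRingEnd ℂ) (NN J μ f g p.1 p.2)
    rw [Complex.mul_conj, Complex.normSq_eq_norm_sq]
  have h2 : ∫ p, ‖NN J μ f g p.1 p.2‖ ^ 2 ∂(pm R) = ‖∫ q, (∫ p, NN J μ f g p.1 p.2 *
      (starRingEnd ℂ) (ker J p.1 p.2 (q.1 - q.2) *
        ((f q.1 * g q.2 : ℝ) : ℂ)) ∂(pm R)) ∂(μ.prod μ)‖ := by
    rw [← h1, Complex.norm_real, Real.norm_eq_abs, abs_of_nonneg h0]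
  rw [h2]
  refine (norm_integral_le_of_norm_le_const (μ := μ.prod μ) (C := A ^ 2 * B)
    (ae_of_all _ fun q => ?_)).trans (le_of_eq (by simp))
  by_cases h3 : f q.1 = 0 ∨ g q.2 = 0
  · have h4 : f q.1 * g q.2 = 0 := by
      rcases h3 with h3 | h3 <;> simp [h3]
    simp only [h4, Complex.ofReal_zero, mul_zero, map_zero, integral_zero, norm_zero]
    positivity
  · rw [not_or] at h3
    obtain ⟨hr1, hr2⟩ := hs q.1 q.2 h3.1 h3.2
    have e2 : ∫ p, NN J μ f g p.1 p.2 * (starRingEnd ℂ) (ker J p.1 p.2 (q.1 - q.2) *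
        ((f q.1 * g q.2 : ℝ) : ℂ)) ∂(pm R) =
        (((f q.1 * g q.2) * Real.exp (-(qa J (q.1 - q.2)) - qb J (q.1 - q.2)) : ℝ) : ℂ) *
        ∫ p, NN J μ f g p.1 p.2 * (cexp (-(I * ((p.1 * qa J (q.1 - q.2) : ℝ) : ℂ))) *
          cexp (-(I * ((p.2 * qb J (q.1 - q.2) : ℝ) : ℂ)))) ∂(pm R) := by
      rw [← integral_const_mul]
      refine integral_congr_ae (ae_of_all _ fun p => ?_)
      simp only
      rw [map_mul, ker_conj, Complex.conj_ofReal, Complex.ofReal_mul (f q.1 * g q.2)]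
      ring
    rw [e2, norm_mul, Complex.norm_real, Real.norm_eq_abs, abs_mul, abs_mul,
      abs_of_pos (Real.exp_pos _)]
    have h5 := hG _ _ hr1 hr2
    have h6 : |f q.1| * |g q.2| ≤ A * A := mul_le_mul (hf.2 _) (hg.2 _) (abs_nonneg _) hA
    have h7 : Real.exp (-(qa J (q.1 - q.2)) - qb J (q.1 - q.2)) ≤ 1 :=
      Real.exp_le_one_iff.2 (by
        have := qa_nonneg J (q.1 - q.2); have := qb_nonneg J (q.1 - q.2); linarith)
    calc |f q.1| * |g q.2| * Real.exp (-(qa J (q.1 - q.2)) - qb J (q.1 - q.2)) * _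
        ≤ A * A * 1 * B := by gcongr
      _ = A ^ 2 * B := by ring

end

theorem me (hFT : S_FT) (hBO : S_BO) : S_ME := by
  intro d J μ hμ C₀ s c A hC₀ hs hc hA hfr
  obtain ⟨C₁, hC₁, hG⟩ := gauss_frostman μ C₀ s hC₀ hs hfr
  obtain ⟨Ca, hCa, ha⟩ := hBO Jᶜ.card c hc
  obtain ⟨Cb, hCb, hb⟩ := hBO J.card c hc
  set K : ℝ := A ^ 2 * (Ca * Cb * (A ^ 2 * (520 * Real.pi) ^ ((d : ℝ) / 2) * (C₁ *
    (Real.sqrt 130) ^ (-s)))) with hK
  refine ⟨K + 1, by positivity, ?_⟩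
  intro f g hf hg hsep R hR
  have hR0 : 0 < R := by linarith
  set b0 : ℝ := 1 / (520 * R ^ 2) with hb0
  have hb0p : 0 < b0 := by positivity
  set T : ℝ := A * (A * ((Real.pi / b0) ^ ((Module.finrank ℝ (E d) : ℝ) / 2)) *
    (C₁ * (Real.sqrt 130 * R) ^ (-s))) with hT
  have hD : ∀ x : E d, ∫ x', A4b_g (1 / (4 * b0)) (x - x') ∂μ ≤ C₁ * (Real.sqrt 130 * R) ^ (-s) := by
    intro x
    have h1 := hG (Real.sqrt 130 * R) x (by positivity)
    refine le_trans (le_of_eq ?_) h1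
    refine integral_congr_ae (ae_of_all _ fun y => ?_)
    simp only [A4b_g]
    congr 2
    rw [mul_pow, Real.sq_sqrt (by norm_num), hb0, dist_eq_norm, ← norm_neg (y - x), neg_sub]
    field_simp
    ring
  have hJf := A4b_J μ hb0p (Complex.measurable_ofReal.comp hf.1) (c := fun z => (f z : ℂ))
    (A := A) (fun x => by rw [Complex.norm_real, Real.norm_eq_abs]; exact hf.2 x) _ hD
  have hJg := A4b_J μ hb0p (Complex.measurable_ofReal.comp hg.1) (c := fun z => (g z : ℂ))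
    (A := A) (fun x => by rw [Complex.norm_real, Real.norm_eq_abs]; exact hg.2 x) _ hD
  have hG2 : ∀ r1 r2 : ℝ, c ≤ r1 → c ≤ r2 → ‖∫ p, NN J μ f g p.1 p.2 *
      (cexp (-(I * ((p.1 * r1 : ℝ) : ℂ))) * cexp (-(I * ((p.2 * r2 : ℝ) : ℂ)))) ∂(pm R)‖ ≤
      (Ca * R ^ ((1 - (Jᶜ.card : ℝ)) / 2)) * (Cb * R ^ ((1 - (J.card : ℝ)) / 2)) * T := by
    intro r1 r2 h1 h2
    refine inner_bound J μ hFT hf hg hR (by positivity) (by positivity) (fun q hq => ?_)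
      (fun q hq => ?_) hJf hJg
    · exact ha R r1 q R (2 * R) hR h1 hq le_rfl (by linarith) (by linarith)
    · exact hb R r2 q R (8 * R) hR h2 hq le_rfl (by linarith) le_rfl
  have hfin := outer_bound J μ hf hg hsep (R := R) (by positivity) hG2
  refine hfin.trans (ENNReal.ofReal_le_ofReal ?_)
  have hcard : (Jᶜ.card : ℝ) + J.card = d := by
    have := Finset.card_compl_add_card J
    rw [Fintype.card_fin] at this
    exact_mod_cast this
  have e1 : R ^ ((1 - (Jᶜ.card : ℝ)) / 2) * R ^ ((1 - (J.card : ℝ)) / 2) =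
      R ^ (1 - (d : ℝ) / 2) := by
    rw [← Real.rpow_add hR0]
    congr 1
    rw [← hcard]
    ring
  have e2 : (Real.pi / b0) ^ ((Module.finrank ℝ (E d) : ℝ) / 2) =
      (520 * Real.pi) ^ ((d : ℝ) / 2) * R ^ (d : ℝ) := by
    rw [finrank_euclideanSpace_fin, hb0, show Real.pi / (1 / (520 * R ^ 2)) =
      (520 * Real.pi) * R ^ 2 by field_simp, Real.mul_rpow (by positivity) (by positivity)]
    congr 1
    rw [← Real.rpow_natCast, ← Real.rpow_mul hR0.le]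
    congr 1
    push_cast
    ring
  have e3 : (Real.sqrt 130 * R) ^ (-s) = (Real.sqrt 130) ^ (-s) * R ^ (-s) :=
    Real.mul_rpow (by positivity) hR0.le
  have e4 : R ^ (1 - (d : ℝ) / 2) * (R ^ (d : ℝ) * R ^ (-s)) = R ^ (1 + (d : ℝ) / 2 - s) := by
    rw [← Real.rpow_add hR0, ← Real.rpow_add hR0]
    congr 1
    ring
  have e5 : A ^ 2 * ((Ca * R ^ ((1 - (Jᶜ.card : ℝ)) / 2)) * (Cb * R ^ ((1 - (J.card : ℝ)) / 2)) * T) =
      K * R ^ (1 + (d : ℝ) / 2 - s) := by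
    rw [← e4, ← e1, hT, e2, e3, hK]
    ring
  rw [e5]
  have : 0 < R ^ (1 + (d : ℝ) / 2 - s) := Real.rpow_pos_of_pos hR0 _
  nlinarith

end Pool.Agent.W772.FA
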